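import Pool.Agent.N408.IB.Stm

/-!
Project IB (helper408): `q (sin ψ)` is semiconvex (helper693).
-/

open Real Set MeasureTheory IB408

namespace N693.IB.REG2

lemma bv : b = 1 / 1000000 := rfl

lemma b_pos : 0 < b := by rw [bv]; norm_num

lemma arcsin_lip {x y : ℝ} (hx : |x| ≤ 1 / 2) (hy : |y| ≤ 1 / 2) :
    |arcsin x - arcsin y| ≤ 6 / 5 * |x - y| := by
  have h := Convex.norm_image_sub_le_of_norm_hasDerivWithin_le (f := arcsin)
    (f' := fun x => 1 / √(1 - x ^ 2)) (C := 6 / 5) (s := Icc (-(1 / 2) : ℝ) (1 / 2))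
    (x := y) (y := x) ?_ ?_ (convex_Icc _ _) (abs_le.mp hy) (abs_le.mp hx)
  · simpa [Real.norm_eq_abs] using h
  · rintro z ⟨hz1, hz2⟩
    exact (Real.hasDerivAt_arcsin (by linarith) (by linarith)).hasDerivWithinAt
  · rintro z ⟨hz1, hz2⟩
    have h1 : (5 / 6 : ℝ) ≤ √(1 - z ^ 2) := by
      apply Real.le_sqrt_of_sq_le
      nlinarith
    have h2 : (0 : ℝ) < √(1 - z ^ 2) := by linarith
    rw [Real.norm_eq_abs, abs_of_pos (by positivity), div_le_iff₀ h2]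
    linarith

lemma cube_le {U V m δ : ℝ} (hm : |m - 1| ≤ 1 / 1000) (hU : |U - m| ≤ 2 / 5 * b ^ 2 * |δ|)
    (hV : |V - m| ≤ 2 / 5 * b ^ 2 * |δ|) (hU1 : |U - m| ≤ 1) (hV1 : |V - m| ≤ 1)
    (hs : U + V - 2 * m ≤ 4 * b * δ ^ 2) : U ^ 3 + V ^ 3 - 2 * m ^ 3 ≤ 13 * b * δ ^ 2 := by
  have e : U ^ 3 + V ^ 3 - 2 * m ^ 3 = 3 * m ^ 2 * (U + V - 2 * m) +
      3 * m * ((U - m) ^ 2 + (V - m) ^ 2) + ((U - m) ^ 3 + (V - m) ^ 3) := by ring
  obtain ⟨hm1, hm2⟩ := abs_le.mp hm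
  have hsq : ∀ W : ℝ, |W| ≤ 2 / 5 * b ^ 2 * |δ| → W ^ 2 ≤ (2 / 5 * b ^ 2) ^ 2 * δ ^ 2 := by
    intro W hW
    have h := pow_le_pow_left₀ (abs_nonneg _) hW 2
    rwa [sq_abs, mul_pow, sq_abs] at h
  have hcu : ∀ W : ℝ, |W| ≤ 1 → W ^ 3 ≤ W ^ 2 := by
    intro W hW
    have h1 : W ≤ 1 := (abs_le.mp hW).2
    nlinarith [mul_nonneg (sq_nonneg W) (sub_nonneg.mpr h1)]
  have h3 : 3 * m ^ 2 * (U + V - 2 * m) ≤ 3 * m ^ 2 * (4 * b * δ ^ 2) :=
    mul_le_mul_of_nonneg_left hs (by positivity)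
  have hb0 := b_pos
  have h4 : 3 * m ^ 2 * (4 * b * δ ^ 2) ≤ (303 / 100) * (4 * b * δ ^ 2) := by
    apply mul_le_mul_of_nonneg_right _ (by positivity)
    nlinarith
  have h5 : 3 * m * ((U - m) ^ 2 + (V - m) ^ 2) ≤ 4 * ((U - m) ^ 2 + (V - m) ^ 2) := by
    apply mul_le_mul_of_nonneg_right _ (by positivity)
    linarith
  have h6 := hsq _ hU
  have h7 := hsq _ hV
  have h8 := hcu _ hU1
  have h9 := hcu _ hV1
  have h10 : (0 : ℝ) ≤ δ ^ 2 := sq_nonneg δ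
  rw [e]
  rw [bv] at *
  norm_num at *
  linarith

lemma tan_le {A A0 : ℝ} (hA : |A| ≤ 1 / 10) (hA0 : |A0| ≤ 1 / 10) :
    1 / (1 + A0) - (A - A0) / (1 + A0) ^ 2 ≤ 1 / (1 + A) := by
  obtain ⟨h1, h2⟩ := abs_le.mp hA
  obtain ⟨h3, h4⟩ := abs_le.mp hA0
  have hp : 0 < 1 + A := by linarith
  have hp0 : 0 < 1 + A0 := by linarith
  have h5 : 1 / (1 + A) - (1 / (1 + A0) - (A - A0) / (1 + A0) ^ 2) =
      (A - A0) ^ 2 / ((1 + A) * (1 + A0) ^ 2) := by
    field_simp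
    ring
  have h6 : 0 ≤ (A - A0) ^ 2 / ((1 + A) * (1 + A0) ^ 2) := by positivity
  linarith

section

variable {q : ℝ → ℝ} {w : ℝ}

/-- second differences of `Pbelt` -/
lemma Pbelt_sd (hρ1 : ∀ x, |Leg (hb q w) x - 1| ≤ 1 / 1000)
    (hρl : ∀ x y, |Leg (hb q w) x - Leg (hb q w) y| ≤ 2 / 5 * b ^ 2 * |x - y|)
    (hρs : ∀ x δ, Leg (hb q w) (x + δ) + Leg (hb q w) (x - δ) - 2 * Leg (hb q w) x ≤
      4 * b * δ ^ 2) (x δ : ℝ) :
    Pbelt q w (x + δ) + Pbelt q w (x - δ) - 2 * Pbelt q w x ≤ 13 * b * δ ^ 2 := by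
  obtain ⟨ρ, hρ⟩ : ∃ ρ, ρ = Leg (hb q w) := ⟨_, rfl⟩
  have hP : ∀ y, Pbelt q w y = (ρ y ^ 3 + ρ (-y) ^ 3) / 2 := by
    intro y; rw [hρ]; rfl
  rw [← hρ] at hρ1 hρl hρs
  have key : ∀ x, ρ (x + δ) ^ 3 + ρ (x - δ) ^ 3 - 2 * ρ x ^ 3 ≤ 13 * b * δ ^ 2 := by
    intro x
    have hone : ∀ y, |ρ y - ρ x| ≤ 1 := by
      intro y
      have h1 := abs_le.mp (hρ1 y)
      have h2 := abs_le.mp (hρ1 x)
      rw [abs_le]
      constructor <;> linarith [h1.1, h1.2, h2.1, h2.2]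
    refine cube_le (hρ1 x) ?_ ?_ (hone _) (hone _) (hρs x δ)
    · have h := hρl (x + δ) x
      rwa [add_sub_cancel_left] at h
    · have h := hρl (x - δ) x
      rwa [sub_sub_cancel_left, abs_neg] at h
  rw [hP, hP, hP]
  have h1 := key x
  have h2 := key (-x)
  have e1 : -(x + δ) = -x - δ := by ring
  have e2 : -(x - δ) = -x + δ := by ring
  rw [e1, e2]
  linarith

/-- second differences of `pt` -/
lemma pt_sd (hPsd : ∀ x δ, Pbelt q w (x + δ) + Pbelt q w (x - δ) - 2 * Pbelt q w x ≤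
      13 * b * δ ^ 2)
    (hPlip : ∀ x y, |Pbelt q w x - Pbelt q w y| ≤ 2 * b ^ 2 * |x - y|) {t δ : ℝ}
    (h0 : |t| ≤ 9 / 20) (h1 : |t + δ| ≤ 9 / 20) (h2 : |t - δ| ≤ 9 / 20) :
    pt q w (t + δ) + pt q w (t - δ) - 2 * pt q w t ≤ 20 * b * δ ^ 2 := by
  obtain ⟨a, ha⟩ : ∃ a, a = arcsin (t + δ) := ⟨_, rfl⟩
  obtain ⟨a', ha'⟩ : ∃ a', a' = arcsin (t - δ) := ⟨_, rfl⟩
  obtain ⟨a₀, ha₀⟩ : ∃ a₀, a₀ = arcsin t := ⟨_, rfl⟩
  obtain ⟨m, hm⟩ : ∃ m, m = (a + a') / 2 := ⟨_, rfl⟩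
  obtain ⟨D, hD⟩ : ∃ D, D = (a - a') / 2 := ⟨_, rfl⟩
  have ea : a = m + D := by rw [hm, hD]; ring
  have ea' : a' = m - D := by rw [hm, hD]; ring
  have hsa : sin a = t + δ := by
    rw [ha]
    exact Real.sin_arcsin (by linarith [(abs_le.mp h1).1]) (by linarith [(abs_le.mp h1).2])
  have hsa' : sin a' = t - δ := by
    rw [ha']
    exact Real.sin_arcsin (by linarith [(abs_le.mp h2).1]) (by linarith [(abs_le.mp h2).2])
  have hDle : |D| ≤ 6 / 5 * |δ| := by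
    have h3 := arcsin_lip (x := t + δ) (y := t - δ) (by linarith) (by linarith)
    rw [← ha, ← ha'] at h3
    have e1 : t + δ - (t - δ) = 2 * δ := by ring
    rw [e1, abs_mul] at h3
    rw [hD, abs_div]
    norm_num at h3 ⊢
    linarith
  have hsc : sin m * cos D = t := by
    have h3 : sin (m + D) + sin (m - D) = 2 * (sin m * cos D) := by
      rw [Real.sin_add, Real.sin_sub]; ring
    rw [← ea, ← ea', hsa, hsa'] at h3
    linarith
  have hma : m ≤ arcsin (9 / 20) := by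
    have h3 : a ≤ arcsin (9 / 20) := by
      rw [ha]; exact Real.monotone_arcsin (by linarith [(abs_le.mp h1).2])
    have h4 : a' ≤ arcsin (9 / 20) := by
      rw [ha']; exact Real.monotone_arcsin (by linarith [(abs_le.mp h2).2])
    rw [hm]; linarith
  have hma' : arcsin (-(9 / 20)) ≤ m := by
    have h3 : arcsin (-(9 / 20)) ≤ a := by
      rw [ha]; exact Real.monotone_arcsin (by linarith [(abs_le.mp h1).1])
    have h4 : arcsin (-(9 / 20)) ≤ a' := by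
      rw [ha']; exact Real.monotone_arcsin (by linarith [(abs_le.mp h2).1])
    rw [hm]; linarith
  have hm1 : m ≤ π / 2 := hma.trans (Real.arcsin_le_pi_div_two _)
  have hm2 : -(π / 2) ≤ m := (Real.neg_pi_div_two_le_arcsin _).trans hma'
  have hsm1 : sin m ≤ 9 / 20 := by
    have h3 := Real.sin_le_sin_of_le_of_le_pi_div_two hm2 (Real.arcsin_le_pi_div_two _) hma
    rwa [Real.sin_arcsin (by norm_num) (by norm_num)] at h3
  have hsm2 : -(9 / 20) ≤ sin m := by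
    have h3 := Real.sin_le_sin_of_le_of_le_pi_div_two (Real.neg_pi_div_two_le_arcsin _) hm1 hma'
    rwa [Real.sin_arcsin (by norm_num) (by norm_num)] at h3
  have hsm : |sin m| ≤ 9 / 20 := abs_le.mpr ⟨hsm2, hsm1⟩
  have hm0 : |m - a₀| ≤ 3 / 10 * D ^ 2 := by
    have h3 := arcsin_lip (x := sin m) (y := t) (by linarith) (by linarith)
    rw [Real.arcsin_sin hm2 hm1, ← ha₀] at h3
    have e1 : sin m - t = sin m * (1 - cos D) := by rw [← hsc]; ring
    have h4 : 1 - cos D ≤ D ^ 2 / 2 := by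
      have := Real.one_sub_sq_div_two_le_cos (x := D)
      linarith
    have h5 : 0 ≤ 1 - cos D := by linarith [Real.cos_le_one D]
    rw [e1, abs_mul, abs_of_nonneg h5] at h3
    have h6 : |sin m| * (1 - cos D) ≤ 1 / 2 * (D ^ 2 / 2) := by
      apply mul_le_mul (by linarith) h4 h5 (by norm_num)
    linarith
  have hD2 : D ^ 2 ≤ 36 / 25 * δ ^ 2 := by
    have h := pow_le_pow_left₀ (abs_nonneg _) hDle 2
    rw [sq_abs, mul_pow, sq_abs] at h
    norm_num at h ⊢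
    linarith
  have h3 := hPsd m D
  rw [← ea, ← ea'] at h3
  have h4 := (abs_le.mp (hPlip m a₀)).2
  have hb0 := b_pos
  have h5 : 2 * b ^ 2 * |m - a₀| ≤ 2 * b ^ 2 * (3 / 10 * D ^ 2) :=
    mul_le_mul_of_nonneg_left hm0 (by positivity)
  have e1 : pt q w (t + δ) = Pbelt q w a - 1 := by rw [ha]; rfl
  have e2 : pt q w (t - δ) = Pbelt q w a' - 1 := by rw [ha']; rfl
  have e3 : pt q w t = Pbelt q w a₀ - 1 := by rw [ha₀]; rfl
  rw [e1, e2, e3]
  have h10 : (0 : ℝ) ≤ δ ^ 2 := sq_nonneg δ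
  rw [bv] at h3 h4 h5 ⊢
  norm_num at h3 h4 h5 ⊢
  linarith

/-- `pt` is Lipschitz -/
lemma pt_lip (hPlip : ∀ x y, |Pbelt q w x - Pbelt q w y| ≤ 2 * b ^ 2 * |x - y|) {x y : ℝ}
    (hx : |x| ≤ 9 / 20) (hy : |y| ≤ 9 / 20) :
    |pt q w x - pt q w y| ≤ 12 / 5 * b ^ 2 * |x - y| := by
  have e1 : pt q w x - pt q w y = Pbelt q w (arcsin x) - Pbelt q w (arcsin y) := by
    unfold pt; ring
  rw [e1]
  refine (hPlip _ _).trans ?_
  have h := arcsin_lip (x := x) (y := y) (by linarith) (by linarith)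
  have hb0 := b_pos
  have h5 : 2 * b ^ 2 * |arcsin x - arcsin y| ≤ 2 * b ^ 2 * (6 / 5 * |x - y|) :=
    mul_le_mul_of_nonneg_left h (by positivity)
  linarith

lemma abs_tau {τ x : ℝ} (hτ : τ ∈ Icc (0 : ℝ) 1) (hx : |x| ≤ 9 / 20) : |τ * x| ≤ 9 / 20 := by
  rw [abs_mul, abs_of_nonneg hτ.1]
  nlinarith [hτ.1, hτ.2, abs_nonneg x]

/-- second differences of `Av` -/
lemma Av_sd (hptc : Continuous (pt q w))
    (hpt : ∀ t δ, |t| ≤ 9 / 20 → |t + δ| ≤ 9 / 20 → |t - δ| ≤ 9 / 20 →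
      pt q w (t + δ) + pt q w (t - δ) - 2 * pt q w t ≤ 20 * b * δ ^ 2) {x δ : ℝ}
    (h0 : |x| ≤ 9 / 20) (h1 : |x + δ| ≤ 9 / 20) (h2 : |x - δ| ≤ 9 / 20) :
    Av q w (x + δ) + Av q w (x - δ) - 2 * Av q w x ≤ 20 * b * δ ^ 2 := by
  have hi : ∀ y : ℝ, IntervalIntegrable (fun τ => pt q w (τ * y)) volume 0 1 := fun y =>
    (hptc.comp (continuous_id.mul continuous_const)).intervalIntegrable _ _
  have e : Av q w (x + δ) + Av q w (x - δ) - 2 * Av q w x =
      ∫ τ in (0 : ℝ)..1, (pt q w (τ * (x + δ)) + pt q w (τ * (x - δ)) -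
        2 * pt q w (τ * x)) := by
    rw [intervalIntegral.integral_sub ((hi _).add (hi _)) ((hi _).const_mul 2),
      intervalIntegral.integral_add (hi _) (hi _), intervalIntegral.integral_const_mul]
    rfl
  rw [e]
  have hb0 := b_pos
  have h3 : (∫ τ in (0 : ℝ)..1, (pt q w (τ * (x + δ)) + pt q w (τ * (x - δ)) -
        2 * pt q w (τ * x))) ≤ ∫ τ in (0 : ℝ)..1, 20 * b * δ ^ 2 := by
    apply intervalIntegral.integral_mono_on (by norm_num)
      (((hi _).add (hi _)).sub ((hi _).const_mul 2)) (by simp)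
    intro τ hτ
    have h4 := hpt (τ * x) (τ * δ) (abs_tau hτ h0)
      (by rw [← mul_add]; exact abs_tau hτ h1) (by rw [← mul_sub]; exact abs_tau hτ h2)
    rw [← mul_add, ← mul_sub] at h4
    refine h4.trans ?_
    apply mul_le_mul_of_nonneg_left _ (by positivity)
    rw [mul_pow]
    have h5 : τ ^ 2 ≤ 1 := by nlinarith [hτ.1, hτ.2]
    nlinarith [sq_nonneg δ]
  refine h3.trans ?_
  simp

/-- `Av` is Lipschitz -/
lemma Av_lip (hptc : Continuous (pt q w))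
    (hpt : ∀ x y, |x| ≤ 9 / 20 → |y| ≤ 9 / 20 → |pt q w x - pt q w y| ≤ 12 / 5 * b ^ 2 * |x - y|)
    {x y : ℝ} (hx : |x| ≤ 9 / 20) (hy : |y| ≤ 9 / 20) :
    |Av q w x - Av q w y| ≤ 12 / 5 * b ^ 2 * |x - y| := by
  have hi : ∀ y : ℝ, IntervalIntegrable (fun τ => pt q w (τ * y)) volume 0 1 := fun y =>
    (hptc.comp (continuous_id.mul continuous_const)).intervalIntegrable _ _
  have e : Av q w x - Av q w y = ∫ τ in (0 : ℝ)..1, (pt q w (τ * x) - pt q w (τ * y)) := by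
    rw [intervalIntegral.integral_sub (hi _) (hi _)]
    rfl
  rw [e]
  have hb0 := b_pos
  have h := intervalIntegral.norm_integral_le_of_norm_le_const (a := (0 : ℝ)) (b := 1)
    (C := 12 / 5 * b ^ 2 * |x - y|) (f := fun τ => pt q w (τ * x) - pt q w (τ * y)) ?_
  · simpa using h
  · intro τ hτ
    rw [uIoc_of_le (by norm_num)] at hτ
    have hτ' : τ ∈ Icc (0 : ℝ) 1 := ⟨hτ.1.le, hτ.2⟩
    rw [Real.norm_eq_abs]
    refine (hpt _ _ (abs_tau hτ' hx) (abs_tau hτ' hy)).trans ?_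
    rw [← mul_sub, abs_mul, abs_of_nonneg hτ'.1]
    apply mul_le_mul_of_nonneg_left _ (by positivity)
    nlinarith [hτ'.1, hτ'.2, abs_nonneg (x - y)]

end

theorem t (h1 : S_L1) (h2 : S_L2) (h3 : S_MID) (h5 : S_ODD2) (h7 : S_BAS2) (h8 : S_END1) :
    IB408.S_REG2 := by
  intro q w hsol hst
  obtain ⟨hadm, hw0, hw1, hfix, hAvb⟩ := hsol
  obtain ⟨hbc, hb1, hbout, hblip, hPc, hP1, hPlip, hPev, hptc, hpt1, hAvc, hAv1, hAvev,
    hAvint⟩ := h7 q w hadm hw0 hw1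
  obtain ⟨hobc, -, -, -, -, hob2, -, -⟩ := h5 w hw0 hw1
  have hb0 := b_pos
  have hb1' : ∀ ψ, |hb q w ψ - 1| ≤ 1 / 10 := by
    intro ψ
    refine (hb1 ψ).trans ?_
    rw [bv]; norm_num
  obtain ⟨-, -, -, hL1, -⟩ := h1 (hb q w) hbc hb1'
  obtain ⟨hL2a, -, hL2c, -, -⟩ := h2 (hb q w) hbc hb1'
  have hρ1 : ∀ x, |Leg (hb q w) x - 1| ≤ 1 / 1000 := by
    intro x
    refine hL1 (1 / 1000) (by norm_num) ?_ x
    intro ψ
    refine (hb1 ψ).trans ?_
    rw [bv]; norm_num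
  have hρl : ∀ x y, |Leg (hb q w) x - Leg (hb q w) y| ≤ 2 / 5 * b ^ 2 * |x - y| := by
    intro x y
    have h := hL2a (b ^ 2 / 5) hblip x y
    linarith
  have hρs : ∀ x δ, Leg (hb q w) (x + δ) + Leg (hb q w) (x - δ) - 2 * Leg (hb q w) x ≤
      4 * b * δ ^ 2 := by
    intro x δ
    have h := hL2c (2 * b) (by positivity) ?_ x δ
    · linarith
    · intro x δ
      have h4 := (abs_le.mp (hst x δ)).2
      have h5 := (abs_le.mp (hob2 x δ)).2
      unfold hb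
      linarith
  have hPsd := Pbelt_sd hρ1 hρl hρs
  have hpts : ∀ t δ, |t| ≤ 9 / 20 → |t + δ| ≤ 9 / 20 → |t - δ| ≤ 9 / 20 →
      pt q w (t + δ) + pt q w (t - δ) - 2 * pt q w t ≤ 20 * b * δ ^ 2 :=
    fun t δ g0 g1 g2 => pt_sd hPsd hPlip g0 g1 g2
  have hptl : ∀ x y, |x| ≤ 9 / 20 → |y| ≤ 9 / 20 →
      |pt q w x - pt q w y| ≤ 12 / 5 * b ^ 2 * |x - y| := fun x y g0 g1 => pt_lip hPlip g0 g1
  have hAvs : ∀ x δ, |x| ≤ 9 / 20 → |x + δ| ≤ 9 / 20 → |x - δ| ≤ 9 / 20 →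
      Av q w (x + δ) + Av q w (x - δ) - 2 * Av q w x ≤ 20 * b * δ ^ 2 :=
    fun x δ g0 g1 g2 => Av_sd hptc hpts g0 g1 g2
  have hAvl : ∀ x y, |x| ≤ 9 / 20 → |y| ≤ 9 / 20 →
      |Av q w x - Av q w y| ≤ 12 / 5 * b ^ 2 * |x - y| := fun x y g0 g1 => Av_lip hptc hptl g0 g1
  -- `pt` vanishes outside of the belt
  have hpt0 : ∀ t, b ≤ |t| → |t| ≤ 9 / 20 → pt q w t = 0 := by
    intro t g1 g2
    have hM := h3 (hb q w) hbc hb1' hbout (h8 q w hadm hw0 hw1)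
    have g3 : al ≤ |arcsin t| := by
      have e : |arcsin t| = arcsin |t| := by
        rcases le_total 0 t with h | h
        · rw [abs_of_nonneg h, abs_of_nonneg (Real.arcsin_nonneg.mpr h)]
        · rw [abs_of_nonpos h, abs_of_nonpos (Real.arcsin_nonpos.mpr h), Real.arcsin_neg]
      rw [e]
      exact Real.monotone_arcsin g1
    have g4 : |arcsin t| ≤ 1 := by
      have h := arcsin_lip (x := t) (y := 0) (by linarith) (by norm_num)
      rw [Real.arcsin_zero, sub_zero, sub_zero] at h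
      linarith
    have g5 := hM (arcsin t) g3 g4
    have g6 := hM (-arcsin t) (by rwa [abs_neg]) (by rwa [abs_neg])
    unfold pt Pbelt
    rw [g5, g6]
    norm_num
  have hAv0 : ∀ x, b ≤ |x| → |x| ≤ 9 / 20 → Av q w x = 0 := by
    have hpos : ∀ x, b ≤ x → x ≤ 9 / 20 → Av q w x = 0 := by
      intro x g1 g2
      have i1 : IntervalIntegrable (pt q w) volume 0 b := hptc.intervalIntegrable _ _
      have i2 : IntervalIntegrable (pt q w) volume b x := hptc.intervalIntegrable _ _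
      have e1 := hAvint x
      have e2 := hAvint b
      rw [hAvb, mul_zero] at e2
      have e3 : (∫ t in b..x, pt q w t) = ∫ t in b..x, (0 : ℝ) := by
        apply intervalIntegral.integral_congr
        intro t ht
        rw [uIcc_of_le g1] at ht
        have h0 : |t| = t := abs_of_nonneg (by linarith [ht.1])
        exact hpt0 t (by rw [h0]; exact ht.1) (by rw [h0]; linarith [ht.2])
      rw [← intervalIntegral.integral_add_adjacent_intervals i1 i2, ← e2, e3,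
        intervalIntegral.integral_zero, add_zero] at e1
      exact (mul_eq_zero.mp e1).resolve_left (by linarith)
    intro x g1 g2
    rcases le_total 0 x with h | h
    · rw [abs_of_nonneg h] at g1 g2
      exact hpos x g1 g2
    · rw [abs_of_nonpos h] at g1 g2
      rw [← hAvev]
      exact hpos (-x) g1 g2
  have hq : ∀ x, |x| ≤ 9 / 20 → q x = 1 / (1 + Av q w x) - 1 := by
    intro x hx
    rcases le_total (|x|) b with h | h
    · have hcl : cl x = x := by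
        unfold cl
        rw [min_eq_left (abs_le.mp h).2, max_eq_right (abs_le.mp h).1]
      rw [hfix x]
      unfold Tw
      rw [hcl, hAvb, mul_zero, sub_zero]
    · rw [hadm.2.2.1 x h, hAv0 x h hx]
      norm_num
  have hAvs1 : ∀ x, |Av q w x| ≤ 1 / 10 := by
    intro x
    refine (hAv1 x).trans ?_
    rw [bv]; norm_num
  have hqs : ∀ x δ, |x| ≤ 9 / 20 → |x + δ| ≤ 9 / 20 → |x - δ| ≤ 9 / 20 →
      -(21 * b * δ ^ 2) ≤ q (x + δ) + q (x - δ) - 2 * q x := by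
    intro x δ g0 g1 g2
    rw [hq _ g0, hq _ g1, hq _ g2]
    have k1 := tan_le (hAvs1 (x + δ)) (hAvs1 x)
    have k2 := tan_le (hAvs1 (x - δ)) (hAvs1 x)
    have k3 := hAvs x δ g0 g1 g2
    have k4 : (Av q w (x + δ) - Av q w x) / (1 + Av q w x) ^ 2 +
        (Av q w (x - δ) - Av q w x) / (1 + Av q w x) ^ 2 ≤ 21 * b * δ ^ 2 := by
      have k5 : (20 / 21 : ℝ) ≤ (1 + Av q w x) ^ 2 := by
        have k6 : |Av q w x| ≤ 1 / 1000 := by
          refine (hAv1 x).trans ?_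
          rw [bv]; norm_num
        have k7 := (abs_le.mp k6).1
        nlinarith
      rw [← add_div, div_le_iff₀ (by linarith)]
      have k8 : 21 * b * δ ^ 2 * (20 / 21) ≤ 21 * b * δ ^ 2 * (1 + Av q w x) ^ 2 :=
        mul_le_mul_of_nonneg_left k5 (by positivity)
      linarith
    linarith
  have hql : ∀ x y, |x| ≤ 9 / 20 → |y| ≤ 9 / 20 → |q x - q y| ≤ 3 * b ^ 2 * |x - y| := by
    intro x y g0 g1
    rw [hq _ g0, hq _ g1]
    have k0 := hAvl x y g0 g1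
    have k1 : (999 / 1000 : ℝ) ≤ 1 + Av q w x := by
      have k6 : |Av q w x| ≤ 1 / 1000 := by
        refine (hAv1 x).trans ?_
        rw [bv]; norm_num
      linarith [(abs_le.mp k6).1]
    have k2 : (999 / 1000 : ℝ) ≤ 1 + Av q w y := by
      have k6 : |Av q w y| ≤ 1 / 1000 := by
        refine (hAv1 y).trans ?_
        rw [bv]; norm_num
      linarith [(abs_le.mp k6).1]
    have e : 1 / (1 + Av q w x) - 1 - (1 / (1 + Av q w y) - 1) =
        -(Av q w x - Av q w y) / ((1 + Av q w x) * (1 + Av q w y)) := by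
      have : (1 + Av q w x) ≠ 0 := by linarith
      have : (1 + Av q w y) ≠ 0 := by linarith
      field_simp
      ring
    have k3 : (9 / 10 : ℝ) ≤ (1 + Av q w x) * (1 + Av q w y) := by nlinarith
    rw [e, abs_div, abs_neg, abs_of_pos (show (0 : ℝ) < (1 + Av q w x) * (1 + Av q w y) by linarith),
      div_le_iff₀ (by linarith)]
    have k4 : 3 * b ^ 2 * |x - y| * (9 / 10) ≤
        3 * b ^ 2 * |x - y| * ((1 + Av q w x) * (1 + Av q w y)) :=
      mul_le_mul_of_nonneg_left k3 (by positivity)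
    have k5 : 0 ≤ b ^ 2 * |x - y| := by positivity
    linarith
  -- the conclusion
  intro ψ δ hδ
  rcases le_total |sin ψ| (1 / 4) with h | h
  · obtain ⟨m, hm⟩ : ∃ m, m = sin ψ * cos δ := ⟨_, rfl⟩
    obtain ⟨D, hD⟩ : ∃ D, D = cos ψ * sin δ := ⟨_, rfl⟩
    have e1 : sin (ψ + δ) = m + D := by rw [Real.sin_add, hm, hD]
    have e2 : sin (ψ - δ) = m - D := by rw [Real.sin_sub, hm, hD]
    have g1 : |m| ≤ 1 / 4 := by
      rw [hm, abs_mul]
      nlinarith [abs_nonneg (sin ψ), abs_nonneg (cos δ), Real.abs_cos_le_one δ]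
    have g2 : |D| ≤ |δ| := by
      rw [hD, abs_mul]
      have k1 : |sin δ| ≤ |δ| := Real.abs_sin_le_abs
      nlinarith [abs_nonneg (sin δ), abs_nonneg (cos ψ), Real.abs_cos_le_one ψ]
    have g3 := abs_le.mp g1
    have g4 := abs_le.mp (g2.trans hδ)
    have k1 := hqs m D (by linarith) (abs_le.mpr ⟨by linarith [g3.1, g4.1], by linarith [g3.2, g4.2]⟩)
      (abs_le.mpr ⟨by linarith [g3.1, g4.2], by linarith [g3.2, g4.1]⟩)
    have k2 := hql m (sin ψ) (by linarith) (by linarith)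
    have k3 : |m - sin ψ| ≤ 1 / 4 * (δ ^ 2 / 2) := by
      have e3 : m - sin ψ = -(sin ψ * (1 - cos δ)) := by rw [hm]; ring
      have h4 : 1 - cos δ ≤ δ ^ 2 / 2 := by
        have := Real.one_sub_sq_div_two_le_cos (x := δ)
        linarith
      have h5 : 0 ≤ 1 - cos δ := by linarith [Real.cos_le_one δ]
      rw [e3, abs_neg, abs_mul, abs_of_nonneg h5]
      exact mul_le_mul h h4 h5 (by norm_num)
    have k4 : 3 * b ^ 2 * |m - sin ψ| ≤ 3 * b ^ 2 * (1 / 4 * (δ ^ 2 / 2)) :=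
      mul_le_mul_of_nonneg_left k3 (by positivity)
    have k5 := (abs_le.mp k2).1
    have k6 : D ^ 2 ≤ δ ^ 2 := sq_le_sq.mpr g2
    rw [e1, e2]
    have h10 : (0 : ℝ) ≤ δ ^ 2 := sq_nonneg δ
    rw [bv] at k1 k4 k5
    norm_num at k1 k4 k5 ⊢
    linarith
  · have hz : ∀ d, |d| ≤ 1 / 10 → q (sin (ψ + d)) = 0 := by
      intro d hd
      apply hadm.2.2.1
      have k1 : |sin (ψ + d) - sin ψ| ≤ 1 / 10 := by
        have k2 := Real.abs_sin_sub_sin_le (ψ + d) ψ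
        rw [add_sub_cancel_left] at k2
        exact k2.trans hd
      have k3 := abs_sub_abs_le_abs_sub (sin ψ) (sin (ψ + d))
      rw [abs_sub_comm] at k1
      rw [bv]
      norm_num at *
      linarith
    have z1 := hz δ hδ
    have z2 := hz (-δ) (by rwa [abs_neg])
    have z3 := hz 0 (by norm_num)
    rw [← sub_eq_add_neg] at z2
    rw [add_zero] at z3
    rw [z1, z2, z3]
    nlinarith [sq_nonneg δ]

end N693.IB.REG2
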